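import Pool.Agent.WR4.Stmts
import Pool.Agent.Helper3_WR3.TER

/-!
WR4, row TCO: most integers are typical.
-/

namespace Pool.Agent.WR4.H22

open Pool.Agent.WIR Pool.Agent.WR2 Pool.Agent.WR3
open scoped BigOperators
open Filter

/-- iterates of positive numbers are positive -/
theorem tco_pos (h1 : UpbStmt) (t b : ℕ) (hb : 0 < b) : 0 < T^[t] b := by
  have h := h1.2 t b
  rcases Nat.eq_zero_or_pos (T^[t] b) with h0 | h0
  · rw [h0] at h
    simp at h
    omega
  · exact h0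

/-- many odd steps -/
theorem tco_many (h1 : UpbStmt) (X a : ℕ) (hK : 12 ≤ Nat.log 2 X) (ha : a ≤ X)
    (hX : X ^ 19 < (T^[Nat.log 2 X] a) ^ 20) : 51 * Nat.log 2 X ≤ 100 * od (Nat.log 2 X) a := by
  set K := Nat.log 2 X with hKdef
  have hX0 : X ≠ 0 := by
    intro h0
    rw [h0] at hKdef
    simp at hKdef
    omega
  have hX1 : 2 ^ K ≤ X := Nat.pow_log_le_self 2 hX0
  have hX2 : X < 2 ^ (K + 1) := Nat.lt_pow_succ_log_self (by norm_num) X
  by_contra hcon
  push Not at hcon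
  set l := od K a with hl
  have h3 : T^[K] a ≤ 3 ^ (l + 1) := H3.iter_le h1 K a (ha.trans hX2.le)
  have h4 : (2 : ℕ) ^ (190 * K) ≤ X ^ 190 := by
    calc (2 : ℕ) ^ (190 * K) = (2 ^ K) ^ 190 := by rw [← pow_mul]; congr 1; ring
      _ ≤ X ^ 190 := Nat.pow_le_pow_left hX1 190
  have h5 : X ^ 190 < 3 ^ (200 * (l + 1)) := by
    calc X ^ 190 = (X ^ 19) ^ 10 := by rw [← pow_mul]
      _ < ((T^[K] a) ^ 20) ^ 10 := Nat.pow_lt_pow_left hX (by norm_num)
      _ = (T^[K] a) ^ 200 := by rw [← pow_mul]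
      _ ≤ (3 ^ (l + 1)) ^ 200 := Nat.pow_le_pow_left h3 200
      _ = 3 ^ (200 * (l + 1)) := by rw [← pow_mul]; congr 1; ring
  have h6 : 3 ^ (200 * (l + 1)) ≤ 3 ^ (102 * K + 200) :=
    Nat.pow_le_pow_right (by norm_num) (by omega)
  have h7 : 3 ^ (102 * K + 200) ≤ 2 ^ (162 * K + 320) := by
    rw [pow_add, pow_add]
    refine Nat.mul_le_mul ?_ ?_
    · calc 3 ^ (102 * K) = (3 ^ 102) ^ K := by rw [← pow_mul]
        _ ≤ (2 ^ 162) ^ K := Nat.pow_le_pow_left (by norm_num) _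
        _ = 2 ^ (162 * K) := by rw [← pow_mul]
    · calc 3 ^ 200 = (3 ^ 5) ^ 40 := by rw [← pow_mul]
        _ ≤ (2 ^ 8) ^ 40 := Nat.pow_le_pow_left (by norm_num) _
        _ = 2 ^ 320 := by rw [← pow_mul]
  have h8 : (2 : ℕ) ^ (162 * K + 320) ≤ 2 ^ (190 * K) :=
    Nat.pow_le_pow_right (by norm_num) (by omega)
  omega

/-- the small numbers are few -/
theorem tco_small (X : ℕ) :
    (((Finset.Icc 1 X).filter (fun b => b ^ 20 ≤ X ^ 19)).card) ^ 20 ≤ X ^ 19 := by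
  by_contra hcon
  push Not at hcon
  set z := ((Finset.Icc 1 X).filter (fun b => b ^ 20 ≤ X ^ 19)).card with hz
  have hz0 : 0 < z := by
    rcases Nat.eq_zero_or_pos z with h0 | h0
    · rw [h0] at hcon
      simp at hcon
    · exact h0
  have hsub : (Finset.Icc 1 X).filter (fun b => b ^ 20 ≤ X ^ 19) ⊆ Finset.Icc 1 (z - 1) := by
    intro b hb
    rw [Finset.mem_filter, Finset.mem_Icc] at hb
    have h2 : b ^ 20 < z ^ 20 := lt_of_le_of_lt hb.2 hcon
    have h3 : b < z := lt_of_pow_lt_pow_left₀ 20 (Nat.zero_le z) h2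
    rw [Finset.mem_Icc]
    omega
  have h4 := Finset.card_le_card hsub
  rw [Nat.card_Icc, ← hz] at h4
  omega

/-- the numbers which are reached from a small number -/
theorem tco_reach (h1 : UpbStmt) (X a : ℕ) (_ha : 0 < a) (haZ : ¬ a ^ 20 ≤ X ^ 19)
    (haG : (T^[Nat.log 2 X] a) ^ 20 ≤ X ^ 19)
    (hr : ∃ b j, 0 < b ∧ b ^ 20 ≤ X ^ 19 ∧ T^[j] b = a) :
    ∃ b, 0 < b ∧ b ^ 20 ≤ X ^ 19 ∧ ∃ r, r < Nat.log 2 X ∧
      T^[r] (T^[sInf {i : ℕ | 1 ≤ i ∧ (T^[Nat.log 2 X] (T^[i] b)) ^ 20 ≤ X ^ 19}] b) = a := by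
  classical
  set K := Nat.log 2 X with hK
  have hex : ∃ j, ∃ b, 0 < b ∧ b ^ 20 ≤ X ^ 19 ∧ T^[j] b = a := by
    obtain ⟨b, j, h⟩ := hr
    exact ⟨j, b, h⟩
  obtain ⟨b, hb0, hbZ, hbj⟩ := Nat.find_spec hex
  set j := Nat.find hex with hj
  have hmin : ∀ i, 1 ≤ i → i ≤ j → ¬ (T^[i] b) ^ 20 ≤ X ^ 19 := by
    intro i hi hij hc
    have h2 : ∃ b', 0 < b' ∧ b' ^ 20 ≤ X ^ 19 ∧ T^[j - i] b' = a := by
      refine ⟨T^[i] b, tco_pos h1 i b hb0, hc, ?_⟩
      rw [← Function.iterate_add_apply, Nat.sub_add_cancel hij]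
      exact hbj
    exact Nat.find_min hex (by omega : j - i < j) h2
  have hj1 : 1 ≤ j := by
    rcases Nat.eq_zero_or_pos j with h0 | h0
    · rw [h0] at hbj
      simp only [Function.iterate_zero, id_eq] at hbj
      rw [hbj] at hbZ
      exact absurd hbZ haZ
    · exact h0
  set S : Set ℕ := {i : ℕ | 1 ≤ i ∧ (T^[K] (T^[i] b)) ^ 20 ≤ X ^ 19} with hS
  have hjS : j ∈ S := by
    refine ⟨hj1, ?_⟩
    rw [hbj]
    exact haG
  have hiS : sInf S ∈ S := Nat.sInf_mem ⟨j, hjS⟩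
  have hij : sInf S ≤ j := Nat.sInf_le hjS
  refine ⟨b, hb0, hbZ, j - sInf S, ?_, ?_⟩
  · by_contra hcon
    push Not at hcon
    have h2 := hmin (K + sInf S) (by have := hiS.1; omega) (by omega)
    rw [Function.iterate_add_apply] at h2
    exact h2 hiS.2
  · rw [← Function.iterate_add_apply, Nat.sub_add_cancel hij]
    exact hbj

open Classical in
/-- **Row TCO**. -/
theorem tco (h1 : UpbStmt) (h2 : SmuStmt) (_h3 : PrdStmt) (h4 : Pool.Agent.WR2.PreStmt)
    (h5 : Pool.Agent.WIR.HoeStmt) : TcoStmt := by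
  intro ε hε
  -- the two limits
  have hl1 : Tendsto (fun K : ℕ => 3 * Real.exp (-((K : ℝ) / 5000))) atTop (nhds (3 * 0)) := by
    refine Tendsto.const_mul 3 ?_
    have h : Tendsto (fun K : ℕ => (K : ℝ) / 5000) atTop atTop :=
      tendsto_natCast_atTop_atTop.atTop_div_const (by norm_num)
    exact Real.tendsto_exp_neg_atTop_nhds_zero.comp h
  have hl2 : Tendsto (fun K : ℕ => ((K + 1 : ℕ) : ℝ) ^ 20 / (2 : ℝ) ^ (K + 1)) atTop (nhds 0) := by
    have h := tendsto_pow_const_div_const_pow_of_one_lt 20 (by norm_num : (1 : ℝ) < 2)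
    exact h.comp (tendsto_add_atTop_nat 1)
  rw [mul_zero] at hl1
  have he2 : (0 : ℝ) < (ε / 2) ^ 20 / 2 := by positivity
  have hev := (hl1.eventually_le_const (by positivity : (0 : ℝ) < ε / 2)).and
    (hl2.eventually_le_const he2)
  obtain ⟨K0, hK0⟩ := eventually_atTop.mp hev
  refine ⟨2 ^ (max K0 12), ?_⟩
  intro X hX
  set K := Nat.log 2 X with hKdef
  have hX0 : X ≠ 0 := by
    have : 0 < 2 ^ (max K0 12) := by positivity
    omega
  have hKm : max K0 12 ≤ K := by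
    rw [hKdef]
    exact (Nat.le_log_iff_pow_le (by norm_num) hX0).mpr hX
  have hK1 : K0 ≤ K := (le_max_left _ _).trans hKm
  have hK12 : 12 ≤ K := (le_max_right _ _).trans hKm
  obtain ⟨hA1, hA2⟩ := hK0 K hK1
  have hX1 : 2 ^ K ≤ X := Nat.pow_log_le_self 2 hX0
  have hX2 : X < 2 ^ (K + 1) := Nat.lt_pow_succ_log_self (by norm_num) X
  have hXR : (2 : ℝ) ^ K ≤ X := by exact_mod_cast hX1
  have hXpos : (0 : ℝ) < X := by exact_mod_cast Nat.pos_of_ne_zero hX0
  -- the sets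
  set A : Finset ℕ := (Finset.Icc 1 X).filter (fun a => X ^ 19 < (T^[K] a) ^ 20) with hA
  set Z : Finset ℕ := (Finset.Icc 1 X).filter (fun b => b ^ 20 ≤ X ^ 19) with hZ
  set φ : ℕ × ℕ → ℕ := fun q =>
    T^[q.2] (T^[sInf {i : ℕ | 1 ≤ i ∧ (T^[K] (T^[i] q.1)) ^ 20 ≤ X ^ 19}] q.1) with hφ
  set R : Finset ℕ := (Z ×ˢ Finset.range K).image φ with hR
  have hsub : (Finset.Icc 1 X).filter (fun a => a ∉ TX X) ⊆ A ∪ (Z ∪ R) := by
    intro a ha
    rw [Finset.mem_filter, Finset.mem_Icc] at ha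
    obtain ⟨⟨ha1, ha2⟩, hna⟩ := ha
    rw [Finset.mem_union, Finset.mem_union]
    by_cases hcA : X ^ 19 < (T^[K] a) ^ 20
    · left
      rw [hA, Finset.mem_filter, Finset.mem_Icc]
      exact ⟨⟨ha1, ha2⟩, hcA⟩
    · right
      push Not at hcA
      by_cases hcZ : a ^ 20 ≤ X ^ 19
      · left
        rw [hZ, Finset.mem_filter, Finset.mem_Icc]
        exact ⟨⟨ha1, ha2⟩, hcZ⟩
      · right
        have hr : ∃ b j, 0 < b ∧ b ^ 20 ≤ X ^ 19 ∧ T^[j] b = a := by
          by_contra hcon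
          apply hna
          refine ⟨hcA, ?_⟩
          intro b j hb hbZ hbj
          exact hcon ⟨b, j, hb, hbZ, hbj⟩
        obtain ⟨b, hb0, hbZ, r, hr1, hr2⟩ := tco_reach h1 X a (by omega) hcZ hcA hr
        rw [hR, Finset.mem_image]
        refine ⟨(b, r), ?_, hr2⟩
        rw [Finset.mem_product, Finset.mem_range, hZ, Finset.mem_filter, Finset.mem_Icc]
        refine ⟨⟨⟨Nat.succ_le_of_lt hb0, ?_⟩, hbZ⟩, hr1⟩
        have h6 : b ^ 20 ≤ X ^ 20 :=
          hbZ.trans (Nat.pow_le_pow_right (Nat.pos_of_ne_zero hX0) (by norm_num))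
        exact le_of_pow_le_pow_left₀ (by norm_num : (20 : ℕ) ≠ 0) (Nat.zero_le X) h6
  have hcardR : R.card ≤ Z.card * K := by
    calc R.card ≤ (Z ×ˢ Finset.range K).card := Finset.card_image_le
      _ = Z.card * K := by rw [Finset.card_product, Finset.card_range]
  have hcard : ((Finset.Icc 1 X).filter (fun a => a ∉ TX X)).card
      ≤ A.card + (K + 1) * Z.card := by
    calc ((Finset.Icc 1 X).filter (fun a => a ∉ TX X)).card ≤ (A ∪ (Z ∪ R)).card :=
          Finset.card_le_card hsub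
      _ ≤ A.card + (Z ∪ R).card := Finset.card_union_le _ _
      _ ≤ A.card + (Z.card + R.card) := Nat.add_le_add_left (Finset.card_union_le _ _) _
      _ ≤ A.card + (Z.card + Z.card * K) := by omega
      _ = A.card + (K + 1) * Z.card := by ring
  -- the numbers of the first kind
  have hAcard : (A.card : ℝ) ≤ ε / 2 * X := by
    set L : Finset ℕ := (Finset.range (K + 1)).filter
      (fun r : ℕ => (K : ℝ) / 50 ≤ 2 * (r : ℝ) - K) with hL
    have hAsub : A ⊆ L.biUnion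
        (fun l => (Finset.Icc 1 (2 ^ (K + 1))).filter (fun b => od K b = l)) := by
      intro b hb
      rw [hA, Finset.mem_filter, Finset.mem_Icc] at hb
      obtain ⟨⟨hb1, hb2⟩, hbX⟩ := hb
      have hod := tco_many h1 X b hK12 hb2 hbX
      rw [Finset.mem_biUnion]
      refine ⟨od K b, ?_, ?_⟩
      · rw [hL, Finset.mem_filter, Finset.mem_range]
        constructor
        · have : od K b ≤ K := by
            unfold od
            calc _ ≤ (Finset.range K).card := Finset.card_filter_le _ _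
              _ = K := Finset.card_range K
          omega
        · have h' : ((51 * K : ℕ) : ℝ) ≤ ((100 * od K b : ℕ) : ℝ) := by exact_mod_cast hod
          push_cast at h'
          linarith
      · rw [Finset.mem_filter, Finset.mem_Icc]
        exact ⟨⟨hb1, hb2.trans hX2.le⟩, rfl⟩
    have hAc : A.card ≤ ∑ l ∈ L, 3 * K.choose l := by
      calc A.card ≤ (L.biUnion (fun l =>
            (Finset.Icc 1 (2 ^ (K + 1))).filter (fun b => od K b = l))).card :=
            Finset.card_le_card hAsub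
        _ ≤ ∑ l ∈ L, ((Finset.Icc 1 (2 ^ (K + 1))).filter (fun b => od K b = l)).card :=
            Finset.card_biUnion_le
        _ ≤ ∑ l ∈ L, 3 * K.choose l := Finset.sum_le_sum fun l _ => H3.count_le h1 h2 h4 K l
    have hKpos : (0 : ℝ) < K := by exact_mod_cast (by omega : 0 < K)
    have hhoe := (h5 K ((K : ℝ) / 50) (by omega) (by positivity)).1
    have hexp : -(((K : ℝ) / 50) ^ 2 / (2 * K)) = -((K : ℝ) / 5000) := by
      field_simp
      norm_num
    rw [hexp] at hhoe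
    have hAR : (A.card : ℝ) ≤ 3 * (2 ^ K * Real.exp (-((K : ℝ) / 5000))) := by
      have h' : (A.card : ℝ) ≤ ((∑ l ∈ L, 3 * K.choose l : ℕ) : ℝ) := by exact_mod_cast hAc
      refine h'.trans ?_
      push_cast
      rw [← Finset.mul_sum]
      exact mul_le_mul_of_nonneg_left hhoe (by norm_num)
    have hpe : (0 : ℝ) ≤ 3 * Real.exp (-((K : ℝ) / 5000)) := by positivity
    calc (A.card : ℝ) ≤ 3 * (2 ^ K * Real.exp (-((K : ℝ) / 5000))) := hAR
      _ = 3 * Real.exp (-((K : ℝ) / 5000)) * 2 ^ K := by ring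
      _ ≤ 3 * Real.exp (-((K : ℝ) / 5000)) * X := mul_le_mul_of_nonneg_left hXR hpe
      _ ≤ ε / 2 * X := mul_le_mul_of_nonneg_right hA1 hXpos.le
  -- the small numbers
  have hZcard : (((K + 1) * Z.card : ℕ) : ℝ) ≤ ε / 2 * X := by
    have hz : ((Z.card : ℝ)) ^ 20 ≤ (X : ℝ) ^ 19 := by
      have h := tco_small X
      exact_mod_cast h
    have hK2 : ((K + 1 : ℕ) : ℝ) ^ 20 ≤ (ε / 2) ^ 20 * X := by
      rw [div_le_iff₀ (by positivity)] at hA2
      calc ((K + 1 : ℕ) : ℝ) ^ 20 ≤ (ε / 2) ^ 20 / 2 * 2 ^ (K + 1) := hA2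
        _ = (ε / 2) ^ 20 * 2 ^ K := by ring
        _ ≤ (ε / 2) ^ 20 * X := mul_le_mul_of_nonneg_left hXR (by positivity)
    have h20 : (((K + 1) * Z.card : ℕ) : ℝ) ^ 20 ≤ (ε / 2 * X) ^ 20 := by
      calc (((K + 1) * Z.card : ℕ) : ℝ) ^ 20 = ((K + 1 : ℕ) : ℝ) ^ 20 * (Z.card : ℝ) ^ 20 := by
            rw [Nat.cast_mul, mul_pow]
        _ ≤ ((ε / 2) ^ 20 * X) * (X : ℝ) ^ 19 :=
            mul_le_mul hK2 hz (by positivity) (by positivity)
        _ = (ε / 2 * X) ^ 20 := by ring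
    exact le_of_pow_le_pow_left₀ (by norm_num : (20 : ℕ) ≠ 0) (by positivity) h20
  calc (((Finset.Icc 1 X).filter (fun a => a ∉ TX X)).card : ℝ)
      ≤ ((A.card + (K + 1) * Z.card : ℕ) : ℝ) := by exact_mod_cast hcard
    _ = (A.card : ℝ) + (((K + 1) * Z.card : ℕ) : ℝ) := by push_cast; ring
    _ ≤ ε / 2 * X + ε / 2 * X := add_le_add hAcard hZcard
    _ = ε * X := by ring

end Pool.Agent.WR4.H22
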